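import Pool.Agent.Helper51.CX.St

/-!
# Project CX (MP_a41ee4_co). Module NEAR.
-/

set_option autoImplicit false

namespace Pool.Agent.Helper42.CX

open Module
open Pool.Agent.Helper51.CX

section

variable {K : Type} [Field K]

theorem L_zero (k : ℕ) : L k (0 : Fin 6 → K) = 0 := by
  simp [L]

theorem L_vv (k : ℕ) : L k (vv K) = 10 ^ 60 := by
  simp [L, vv]

theorem vv_5 : vv K 5 = 1 := by simp [vv]
theorem vv_0 : vv K 0 = 0 := by simp [vv]
theorem vv_1 : vv K 1 = 0 := by simp [vv]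
theorem vv_2 : vv K 2 = 0 := by simp [vv]
theorem vv_3 : vv K 3 = 0 := by simp [vv]
theorem vv_4 : vv K 4 = 0 := by simp [vv]

/-- The two gap rows next to a narrow row. -/
theorem gap (j : ℕ) (h1 : 32 ≤ j) (h2 : j < 64) (z : Fin 6 → K) :
    L j z - L (ga j) z = (la j : K) * (10 ^ 40 * ww j z + 10 ^ 20 * pp j z - el j z) ∧
    L j z - L (gb j) z = (la j : K) * (-(10 ^ 40 * ww j z) + 10 ^ 20 * pp j z - el j z) := by
  obtain ⟨a, b, c, d, _, _, ha, hb, _⟩ := hT1 j h2 h1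
  obtain ⟨_, _, _, _, _, a6⟩ := hT2' (ga j) ha
  obtain ⟨_, _, _, _, _, b6⟩ := hT2' (gb j) hb
  have a' : (qx j : K) - qx (ga j) = -(la j * fy j) := by exact_mod_cast congrArg (Int.cast : ℤ → K) a
  have b' : (qy j : K) - qy (ga j) = la j * fx j := by exact_mod_cast congrArg (Int.cast : ℤ → K) b
  have c' : (qx j : K) - qx (gb j) = la j * fy j := by exact_mod_cast congrArg (Int.cast : ℤ → K) c
  have d' : (qy j : K) - qy (gb j) = -(la j * fx j) := by exact_mod_cast congrArg (Int.cast : ℤ → K) d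
  constructor
  · simp only [L, a6, Int.cast_zero, zero_mul, add_zero, ww, pp, el]
    linear_combination (10 ^ 40 * z 0) * a' + (10 ^ 40 * z 1) * b'
  · simp only [L, b6, Int.cast_zero, zero_mul, add_zero, ww, pp, el]
    linear_combination (10 ^ 40 * z 0) * c' + (10 ^ 40 * z 1) * d'

end

section

variable {K : Type} [Field K] [LinearOrder K] [IsStrictOrderedRing K]

/-- A point on all homogeneous V-rows: the two forms of a corner vanish. -/
theorem two_forms (y : Fin 6 → K) (hy : ∀ k < 64, L k y = 0) (j : ℕ) (h1 : 32 ≤ j) (h2 : j < 64) :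
    ww j y = 0 ∧ 10 ^ 20 * pp j y - el j y = 0 := by
  obtain ⟨e1, e2⟩ := gap j h1 h2 y
  obtain ⟨_, _, _, _, _, _, ha, hb, _⟩ := hT1 j h2 h1
  have hla : (la j : K) ≠ 0 := ne_of_gt (lt_of_lt_of_le one_pos (la_bds j h1 h2).1)
  rw [hy j h2, hy (ga j) (by omega), sub_zero] at e1
  rw [hy j h2, hy (gb j) (by omega), sub_zero] at e2
  have f1 := (mul_eq_zero.1 e1.symm).resolve_left hla
  have f2 := (mul_eq_zero.1 e2.symm).resolve_left hla
  have g1 : (10 : K) ^ 40 * ww j y = 0 := by linarith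
  have g2 : ww j y = 0 := (mul_eq_zero.1 g1).resolve_left (by positivity)
  refine ⟨g2, ?_⟩
  rw [g2, mul_zero, zero_add] at f1
  exact f1

/-- The V-rows have no common zero except `0`. -/
theorem zero_of_rows (y : Fin 6 → K) (hy : ∀ k < 64, L k y = 0) : y = 0 := by
  have t := two_forms y hy
  obtain ⟨w1, q1⟩ := t 32 (by norm_num) (by norm_num)
  obtain ⟨w2, q2⟩ := t 33 (by norm_num) (by norm_num)
  obtain ⟨_, q3⟩ := t 34 (by norm_num) (by norm_num)
  obtain ⟨_, q4⟩ := t 36 (by norm_num) (by norm_num)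
  have x1 : fx 32 = -50 ∧ fx 33 = -50 ∧ fx 34 = -50 ∧ fx 36 = -50 := by decide
  have x2 : fy 32 = -37 ∧ fy 33 = -39 ∧ fy 34 = -43 ∧ fy 36 = -55 := by decide
  have x3 : v1 32 = 1 ∧ v1 33 = -1 ∧ v1 34 = 1 ∧ v1 36 = 1 := by decide
  have x4 : v2 32 = 1 ∧ v2 33 = 1 ∧ v2 34 = -1 ∧ v2 36 = 1 := by decide
  have x5 : v3 32 = 1 ∧ v3 33 = 1 ∧ v3 34 = 1 ∧ v3 36 = -1 := by decide
  obtain ⟨a1, a2, a3, a4⟩ := x1
  obtain ⟨b1, b2, b3, b4⟩ := x2
  obtain ⟨c1, c2, c3, c4⟩ := x3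
  obtain ⟨d1, d2, d3, d4⟩ := x4
  obtain ⟨e1, e2, e3, e4⟩ := x5
  simp only [ww, a1, b1] at w1
  simp only [ww, a2, b2] at w2
  simp only [pp, el, a1, b1, c1, d1, e1] at q1
  simp only [pp, el, a2, b2, c2, d2, e2] at q2
  simp only [pp, el, a3, b3, c3, d3, e3] at q3
  simp only [pp, el, a4, b4, c4, d4, e4] at q4
  push_cast at w1 w2 q1 q2 q3 q4
  have y0 : y 0 = 0 := by linarith
  have y1 : y 1 = 0 := by linarith
  rw [y0, y1] at q1 q2 q3 q4
  have y2 : y 2 = 0 := by linarith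
  have y3 : y 3 = 0 := by linarith
  have y4 : y 4 = 0 := by linarith
  have h5 := hy 0 (by norm_num)
  simp only [L, y0, y1, y2, y3, y4, mul_zero, add_zero, sub_zero] at h5
  have y5 : y 5 = 0 := (mul_eq_zero.1 h5).resolve_left (by positivity)
  funext i
  fin_cases i
  · exact y0
  · exact y1
  · exact y2
  · exact y3
  · exact y4
  · exact y5

end

theorem hNEAR : StNEAR := by
  intro K _ _ _
  have e60 : (0 : K) < 10 ^ 60 := by positivity
  refine ⟨?_, ⟨?_, ?_⟩, ?_, ?_⟩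
  · show ∀ k, rr K k ≤ cc K k 0
    intro k
    revert k
    rw [forall_rows (fun c r => r ≤ c 0)]
    refine ⟨fun k _ => ?_, ?_, ?_, ?_, ?_, ?_, ?_, ?_, ?_, ?_, ?_⟩ <;> simp
  · show ∀ k, rr K k ≤ cc K k (vv K)
    rw [forall_rows (fun c r => r ≤ c (vv K))]
    refine ⟨fun k _ => ?_, ?_, ?_, ?_, ?_, ?_, ?_, ?_, ?_, ?_, ?_⟩ <;>
      simp [VR_apply, RX_apply, RY_apply, RZ_apply, L_vv, vv_0, vv_1, vv_2, vv_3, vv_4, vv_5]
  · intro y hy
    apply zero_of_rows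
    intro k hk
    have h1 := hy ⟨k, by omega⟩ (by
      rw [(cc_lo k hk _).1, (cc_lo k hk _).2, VR_apply, L_vv])
    rw [(cc_lo k hk _).1, VR_apply] at h1
    exact neg_eq_zero.1 h1
  · rw [forall_rows (fun c r => c (vv K) = r → r < c 0)]
    refine ⟨fun k _ => ?_, ?_, ?_, ?_, ?_, ?_, ?_, ?_, ?_, ?_, ?_⟩ <;>
      simp [VR_apply, RX_apply, RY_apply, RZ_apply, L_vv, L_zero, vv_0, vv_1, vv_2, vv_3, vv_4, vv_5]
  · rw [forall_rows (fun c r => c (vv K) ≠ r → c 0 < c (vv K))]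
    refine ⟨fun k _ => ?_, ?_, ?_, ?_, ?_, ?_, ?_, ?_, ?_, ?_, ?_⟩ <;>
      simp [VR_apply, RX_apply, RY_apply, RZ_apply, L_vv, vv_0, vv_1, vv_2, vv_3, vv_4, vv_5]

end Pool.Agent.Helper42.CX
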